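import Pool.Agent.Helper9.EV.Defs
import Pool.Agent.Helper54.TD.Cls

/-!
# Relative girth: the case in which all triples are spherical
-/

set_option autoImplicit false

namespace Pool.Agent.Helper83.EV

open Pool.Agent.Helper9.EV Pool.Agent.Helper54.LA Pool.Agent.Helper54.TD

section abstract

variable {G : Type} [Group G] {B P Q : Subgroup G}

/-- Label two. -/
theorem rg_two (hPQ : P ⊓ Q ≤ B) (hBP : B ≤ P) (hBQ : B ≤ Q) : RG B P Q 2 := by
  have key : ∀ (P Q : Subgroup G), P ⊓ Q ≤ B → B ≤ P → B ≤ Q → ∀ n g, 0 < n → Alt B P Q n g → g ∈ B → 4 ≤ n := by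
    intro P Q hPQ hBP hBQ n g hn h hg
    by_contra hlt
    cases h with
    | nil => omega
    | @cons _ _ n x g' hx hx0 h =>
      cases h with
      | nil => exact hx0 (by simpa using hg)
      | @cons _ _ n y g' hy hy0 h =>
        cases h with
        | nil =>
          have h2 : y ∈ P := by
            have h1 : y = x⁻¹ * (x * (y * 1)) := by group
            rw [h1]
            exact mul_mem (inv_mem hx) (hBP hg)
          exact hy0 (hPQ ⟨h2, hy⟩)
        | @cons _ _ n z g' hz hz0 h =>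
          cases h with
          | nil =>
            have h2 : y ∈ P := by
              have h1 : y = x⁻¹ * (x * (y * (z * 1))) * z⁻¹ := by group
              rw [h1]
              exact mul_mem (mul_mem (inv_mem hx) (hBP hg)) (inv_mem hz)
            exact hy0 (hPQ ⟨h2, hy⟩)
          | cons => omega
  intro n g hn h hg
  rcases h with h | h
  · exact key P Q hPQ hBP hBQ n g hn h hg
  · exact key Q P (by rw [inf_comm]; exact hPQ) hBQ hBP n g hn h hg

/-- Intersections by retractions. -/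
theorem inf_le_of_retract (κ : G →* G) (hQ : ∀ x ∈ Q, κ x = x) (hP : ∀ x ∈ P, κ x ∈ B) : P ⊓ Q ≤ B := by
  rintro x ⟨hxP, hxQ⟩
  rw [← hQ x hxQ]
  exact hP x hxP

/-- Elements of the subgroup generated by `B` and an element which commutes with `B`. -/
theorem exists_zpow {z : G} (hc : ∀ t ∈ B, Commute t z) {y : G} (hy : y ∈ B ⊔ Subgroup.zpowers z) :
    ∃ t ∈ B, ∃ a : ℤ, y = t * z ^ a := by
  let R : Subgroup G :=
    { carrier := {y | ∃ t ∈ B, ∃ a : ℤ, y = t * z ^ a}
      one_mem' := ⟨1, one_mem _, 0, by simp⟩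
      mul_mem' := by
        rintro _ _ ⟨t, ht, a, rfl⟩ ⟨u, hu, b, rfl⟩
        refine ⟨t * u, mul_mem ht hu, a + b, ?_⟩
        have h1 : z ^ a * u = u * z ^ a := ((hc u hu).zpow_right a).eq.symm
        rw [zpow_add]
        calc t * z ^ a * (u * z ^ b) = t * (z ^ a * u) * z ^ b := by group
          _ = t * u * (z ^ a * z ^ b) := by rw [h1]; group
      inv_mem' := by
        rintro _ ⟨t, ht, a, rfl⟩
        refine ⟨t⁻¹, inv_mem ht, -a, ?_⟩
        have h1 : z ^ (-a) * t⁻¹ = t⁻¹ * z ^ (-a) := ((hc _ (inv_mem ht)).zpow_right (-a)).eq.symm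
        rw [mul_inv_rev, ← zpow_neg, h1] }
  have h1 : B ⊔ Subgroup.zpowers z ≤ R := by
    refine sup_le (fun t ht => ⟨t, ht, 0, by simp⟩) ?_
    rw [Subgroup.zpowers_le]
    exact ⟨1, one_mem _, 1, by simp⟩
  exact h1 hy

/-- An alternating product is mapped to an alternating product of nontrivial powers. -/
theorem exists_pw {H : Type} [Group H] {K : Subgroup G} (ρ : G → H) (hmul : ∀ x ∈ K, ∀ y ∈ K, ρ (x * y) = ρ x * ρ y)
    {x : Bool → G} (hK : ∀ b, B ⊔ Subgroup.zpowers (x b) ≤ K) (hρ : ∀ t ∈ B, ρ t = 1)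
    (hc : ∀ b, ∀ t ∈ B, Commute t (x b)) (n : ℕ) :
    ∀ (b : Bool) (g : G), Alt B (B ⊔ Subgroup.zpowers (x b)) (B ⊔ Subgroup.zpowers (x !b)) n g →
      g ∈ K ∧ ∃ l : List ℤ, l.length = n ∧ (∀ a ∈ l, a ≠ 0) ∧ ρ g = pw (fun b => ρ (x b)) b l := by
  have h1 : ρ 1 = 1 := hρ 1 (one_mem _)
  have hxK : ∀ b, x b ∈ K := fun b => hK b (Subgroup.mem_sup_right (Subgroup.mem_zpowers _))
  have hinv : ∀ y ∈ K, ρ y⁻¹ = (ρ y)⁻¹ := by
    intro y hy
    rw [eq_inv_iff_mul_eq_one, ← hmul _ (inv_mem hy) _ hy, inv_mul_cancel, h1]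
  have hpow : ∀ y ∈ K, ∀ n : ℕ, ρ (y ^ n) = ρ y ^ n := by
    intro y hy n
    induction n with
    | zero => rw [pow_zero, pow_zero, h1]
    | succ n ih => rw [pow_succ, pow_succ, hmul _ (pow_mem hy n) _ hy, ih]
  have hzpow : ∀ y ∈ K, ∀ n : ℤ, ρ (y ^ n) = ρ y ^ n := by
    intro y hy n
    rcases n with n | n
    · rw [Int.ofNat_eq_natCast, zpow_natCast, zpow_natCast, hpow y hy]
    · rw [zpow_negSucc, zpow_negSucc, hinv _ (pow_mem hy _), hpow y hy]
  induction n with
  | zero =>
    intro b g h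
    cases h
    exact ⟨one_mem _, [], rfl, by simp, by rw [h1, pw_nil]⟩
  | succ n ih =>
    intro b g h
    cases h with
    | @cons _ _ n y g' hy hy0 h =>
      obtain ⟨hg', l, hl, hl0, he⟩ := ih (!b) g' (by rw [Bool.not_not]; exact h)
      refine ⟨mul_mem (hK b hy) hg', ?_⟩
      obtain ⟨t, ht, a, rfl⟩ := exists_zpow (hc b) hy
      refine ⟨a :: l, by rw [List.length_cons, hl], fun c hcl => ?_, ?_⟩
      · rcases List.mem_cons.1 hcl with rfl | hcl
        · rintro rfl
          exact hy0 (by rw [zpow_zero, mul_one]; exact ht)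
        · exact hl0 c hcl
      · rw [hmul _ (hK b hy) _ hg', hmul _ (hK b (Subgroup.mem_sup_left ht)) _ (zpow_mem (hxK b) a), hρ t ht, one_mul,
          hzpow _ (hxK b), he, pw_cons]

/-- **Relative girth, the commuting case**, for functions `ρ` which are multiplicative on a subgroup. -/
theorem rg_of_commuteK {H : Type} [Group H] {K : Subgroup G} (ρ : G → H)
    (hmul : ∀ x ∈ K, ∀ y ∈ K, ρ (x * y) = ρ x * ρ y) {x y : G} (hxK : B ⊔ Subgroup.zpowers x ≤ K)
    (hyK : B ⊔ Subgroup.zpowers y ≤ K) (hρ : ∀ t ∈ B, ρ t = 1) (hcx : ∀ t ∈ B, Commute t x)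
    (hcy : ∀ t ∈ B, Commute t y) {m : ℕ}
    (hAS : ∀ (l : List ℤ) (b : Bool), (∀ a ∈ l, a ≠ 0) → l ≠ [] → l.length < 2 * m →
      pw (pr (ρ x) (ρ y)) b l ≠ 1) : RG B (B ⊔ Subgroup.zpowers x) (B ⊔ Subgroup.zpowers y) m := by
  have hf : (fun b => ρ (pr x y b)) = pr (ρ x) (ρ y) := by
    funext b
    cases b <;> rfl
  have hK : ∀ b, B ⊔ Subgroup.zpowers (pr x y b) ≤ K := fun b => by
    cases b
    · exact hyK
    · exact hxK
  have hc : ∀ b, ∀ t ∈ B, Commute t (pr x y b) := fun b => by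
    cases b
    · exact hcy
    · exact hcx
  have key : ∀ b n g, 0 < n → Alt B (B ⊔ Subgroup.zpowers (pr x y b)) (B ⊔ Subgroup.zpowers (pr x y !b)) n g →
      g ∈ B → 2 * m ≤ n := by
    intro b n g hn h hg
    obtain ⟨-, l, hl, hl0, he⟩ := exists_pw ρ hmul hK hρ hc n b g h
    by_contra hlt
    refine hAS l b hl0 ?_ (by omega) ?_
    · rintro rfl
      simp at hl
      omega
    · rw [hf] at he
      rw [← he, hρ g hg]
  intro n g hn h hg
  rcases h with h | h
  · exact key true n g hn h hg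
  · exact key false n g hn h hg

/-- **Relative girth, the commuting case.** -/
theorem rg_of_commute {H : Type} [Group H] (ρ : G →* H) {x y : G} (hρ : ∀ t ∈ B, ρ t = 1)
    (hcx : ∀ t ∈ B, Commute t x) (hcy : ∀ t ∈ B, Commute t y) {m : ℕ}
    (hAS : ∀ (l : List ℤ) (b : Bool), (∀ a ∈ l, a ≠ 0) → l ≠ [] → l.length < 2 * m →
      pw (pr (ρ x) (ρ y)) b l ≠ 1) : RG B (B ⊔ Subgroup.zpowers x) (B ⊔ Subgroup.zpowers y) m :=
  rg_of_commuteK (K := ⊤) ρ (fun x _ y _ => map_mul ρ x y) le_top le_top hρ hcx hcy hAS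

end abstract

/-! ### Artin groups -/

section artin

open Pool.Agent.Helper13.LT

variable {S : Type} (M : CoxeterMatrix S)

/-- The standard generators. -/
abbrev ge (s : S) : ArtinGroup M := PresentedGroup.of s

/-- The standard parabolic subgroups. -/
def PP (T : Set S) : Subgroup (ArtinGroup M) := Subgroup.closure (ge M '' T)

variable {M}

theorem ge_mem {T : Set S} {s : S} (h : s ∈ T) : ge M s ∈ PP M T := Subgroup.subset_closure ⟨s, h, rfl⟩

theorem PP_mono {T U : Set S} (h : T ⊆ U) : PP M T ≤ PP M U := Subgroup.closure_mono (Set.image_mono h)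

theorem PP_empty : PP M ∅ = ⊥ := by
  rw [PP, Set.image_empty, Subgroup.closure_empty]

theorem PP_insert (T : Set S) (s : S) : PP M (insert s T) = PP M T ⊔ Subgroup.zpowers (ge M s) := by
  rw [PP, PP, Set.image_insert_eq, Subgroup.zpowers_eq_closure, sup_comm, ← Subgroup.closure_union,
    Set.insert_eq]

theorem alt_one_left {G : Type} [Group G] (y : G) (n : ℕ) : alt (1 : G) y (2 * n) = y ^ n := by
  induction n with
  | zero => rw [mul_zero, pow_zero, alt]
  | succ n ih => rw [Nat.mul_succ, alt, alt, one_mul, ih, pow_succ']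

theorem alt_one_right {G : Type} [Group G] (y : G) (n : ℕ) : alt y (1 : G) (2 * n) = y ^ n := by
  induction n with
  | zero => rw [mul_zero, pow_zero, alt]
  | succ n ih => rw [Nat.mul_succ, alt, alt, one_mul, ih, pow_succ']

theorem alt_one_one {G : Type} [Group G] (n : ℕ) : alt (1 : G) 1 n = 1 := by
  induction n with
  | zero => rfl
  | succ n ih => rw [alt, ih, one_mul]

variable (M)

open Classical in
/-- The endomorphism which kills the generators in `T`, all labels of which are even. -/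
noncomputable def kil (T : Set S) (hT : ∀ t ∈ T, ∀ v, v ≠ t → Even (M t v)) : ArtinGroup M →* ArtinGroup M :=
  artinLift M (fun s => if s ∈ T then 1 else ge M s) (by
    intro s t h0
    by_cases hst : s = t
    · rw [hst]
    by_cases hs : s ∈ T
    · by_cases ht : t ∈ T
      · rw [if_pos hs, if_pos ht]
      · rw [if_pos hs, if_neg ht]
        obtain ⟨n, hn⟩ := hT s hs t (Ne.symm hst)
        rw [hn, ← two_mul, alt_one_left, alt_one_right]
    · by_cases ht : t ∈ T
      · rw [if_neg hs, if_pos ht]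
        obtain ⟨n, hn⟩ := hT t ht s hst
        rw [M.symmetric, hn, ← two_mul, alt_one_left, alt_one_right]
      · rw [if_neg hs, if_neg ht]
        exact artin_braid M s t h0)

variable {M} {T : Set S} (hT : ∀ t ∈ T, ∀ v, v ≠ t → Even (M t v))

theorem kil_of_mem {s : S} (h : s ∈ T) : kil M T hT (ge M s) = 1 := by
  rw [kil, ge, artinLift_of, if_pos h]

theorem kil_of_notMem {s : S} (h : s ∉ T) : kil M T hT (ge M s) = ge M s := by
  rw [kil, ge, artinLift_of, if_neg h]

theorem kil_PP {U : Set S} {x : ArtinGroup M} (hx : x ∈ PP M U) : kil M T hT x ∈ PP M (U \ T) := by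
  have h1 : PP M U ≤ (PP M (U \ T)).comap (kil M T hT) := by
    rw [PP, Subgroup.closure_le]
    rintro _ ⟨s, hs, rfl⟩
    rw [SetLike.mem_coe, Subgroup.mem_comap]
    by_cases h : s ∈ T
    · rw [kil_of_mem hT h]
      exact one_mem _
    · rw [kil_of_notMem hT h]
      exact ge_mem ⟨hs, h⟩
  exact h1 hx

theorem kil_eq_self {U : Set S} (hU : Disjoint U T) {x : ArtinGroup M} (hx : x ∈ PP M U) : kil M T hT x = x := by
  have h1 : PP M U ≤ (kil M T hT).eqLocus (MonoidHom.id _) := by
    rw [PP, Subgroup.closure_le]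
    rintro _ ⟨s, hs, rfl⟩
    exact kil_of_notMem hT (Set.disjoint_left.1 hU hs)
  exact h1 hx

theorem kil_eq_one {x : ArtinGroup M} (hx : x ∈ PP M T) : kil M T hT x = 1 := by
  have h1 := kil_PP hT hx
  rw [Set.sdiff_self, PP_empty, Subgroup.mem_bot] at h1
  exact h1

/-- commuting generators -/
theorem commute_of_two {s t : S} (h : M s t = 2) : Commute (ge M s) (ge M t) := by
  have h1 := artin_braid M s t (by rw [h]; norm_num)
  rw [h] at h1
  have h2 : ge M s * (ge M t * 1) = ge M t * (ge M s * 1) := h1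
  rwa [mul_one, mul_one] at h2

theorem commute_PP {T : Set S} {s : S} (h : ∀ t ∈ T, M t s = 2) {x : ArtinGroup M} (hx : x ∈ PP M T) :
    Commute x (ge M s) := by
  have h1 : PP M T ≤ Subgroup.centralizer {ge M s} := by
    rw [PP, Subgroup.closure_le]
    rintro _ ⟨t, ht, rfl⟩
    rw [SetLike.mem_coe, Subgroup.mem_centralizer_iff]
    rintro _ rfl
    exact (commute_of_two (h t ht)).eq.symm
  have h2 := Subgroup.mem_centralizer_iff.1 (h1 hx) _ rfl
  exact h2.symm

include hT in
/-- The commuting case: all elements of the even set `T` commute with `i` and `j`. -/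
theorem rg_commute [Finite S] {i j : S} (hij : i ≠ j) (h0 : M i j ≠ 0) (hi : i ∉ T) (hj : j ∉ T)
    (hTi : ∀ t ∈ T, M t i = 2) (hTj : ∀ t ∈ T, M t j = 2) :
    RG (PP M T) (PP M (insert i T)) (PP M (insert j T)) (M i j) := by
  rw [PP_insert, PP_insert]
  refine rg_of_commute (kil M T hT) (fun t ht => kil_eq_one hT ht) (fun t ht => commute_PP hTi ht)
    (fun t ht => commute_PP hTj ht) ?_
  intro l b hl0 hl hn
  rw [kil_of_notMem hT hi, kil_of_notMem hT hj]
  exact artin_appel_schupp M hij h0 l b hl0 hl hn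

/-- Label two: `i` is even. -/
theorem rg_even_two {T : Set S} {i j : S} (hi : i ∉ T) (hij : i ≠ j) (hei : ∀ v, v ≠ i → Even (M i v)) :
    RG (PP M T) (PP M (insert i T)) (PP M (insert j T)) 2 := by
  have he : ∀ t ∈ ({i} : Set S), ∀ v, v ≠ t → Even (M t v) := by
    rintro t rfl
    exact hei
  refine rg_two (inf_le_of_retract (kil M {i} he) (fun x hx => ?_) (fun x hx => ?_)) (PP_mono (Set.subset_insert _ _))
    (PP_mono (Set.subset_insert _ _))
  · refine kil_eq_self he ?_ hx
    rw [Set.disjoint_singleton_right, Set.mem_insert_iff]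
    rintro (h | h)
    · exact hij h
    · exact hi h
  · refine PP_mono ?_ (kil_PP he hx)
    rintro s ⟨hs, hsi⟩
    exact (Set.mem_insert_iff.1 hs).resolve_left hsi

/-- **Case (B) of the relative girth lemma**: all triples `i, j, t` with `t` in `T` are spherical. -/
theorem rg_caseB [Finite S] (hE : ETri M) {T : Set S} {i j : S} (hij : i ≠ j) (h0 : M i j ≠ 0) (hi : i ∉ T)
    (hj : j ∉ T) (hsp : ∀ t ∈ T, Sp3 M i j t) :
    RG (PP M T) (PP M (insert i T)) (PP M (insert j T)) (M i j) := by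
  have hti : ∀ t ∈ T, t ≠ i := fun t ht h => hi (h ▸ ht)
  have htj : ∀ t ∈ T, t ≠ j := fun t ht h => hj (h ▸ ht)
  have hT : ∀ t ∈ T, ∀ v, v ≠ t → Even (M t v) := by
    intro t ht
    obtain ⟨h1, h2, h3, h4⟩ := hsp t ht
    refine hE t j i (htj t ht) (Ne.symm hij) (hti t ht) ⟨?_, ?_, ?_, ?_⟩
    · rw [M.symmetric]; exact h2
    · rw [M.symmetric]; exact h1
    · rw [M.symmetric]; exact h3
    · rw [M.symmetric t j, M.symmetric j i, M.symmetric t i]
      linarith
  rcases T.eq_empty_or_nonempty with rfl | ⟨t₀, ht₀⟩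
  · exact rg_commute hT hij h0 hi hj (fun t ht => ht.elim) (fun t ht => ht.elim)
  have hei : ∀ v, v ≠ i → Even (M i v) := hE i j t₀ hij (Ne.symm (htj t₀ ht₀)) (Ne.symm (hti t₀ ht₀)) (hsp t₀ ht₀)
  by_cases h2 : M i j = 2
  · rw [h2]
    exact rg_even_two hi hij hei
  have h4 : 4 ≤ M i j := by
    obtain ⟨n, hn⟩ := hei j (Ne.symm hij)
    omega
  have hq4 : (1 : ℚ) / M i j ≤ 1 / 4 := by
    apply one_div_le_one_div_of_le (by norm_num)
    exact_mod_cast h4
  have key : ∀ t ∈ T, M j t = 2 ∧ M i t = 2 := by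
    intro t ht
    obtain ⟨h1, h2', h3, h5⟩ := hsp t ht
    have ej : Even (M j t) := by
      rw [M.symmetric]
      exact hT t ht j (Ne.symm (htj t ht))
    have ei : Even (M i t) := by
      rw [M.symmetric]
      exact hT t ht i (Ne.symm (hti t ht))
    have hq : ∀ m : ℕ, m ≠ 0 → Even m → m ≠ 2 → (1 : ℚ) / m ≤ 1 / 4 := by
      intro m hm he hm2
      apply one_div_le_one_div_of_le (by norm_num)
      obtain ⟨n, hn⟩ := he
      have : 4 ≤ m := by omega
      exact_mod_cast this
    have hq2 : ∀ m : ℕ, m ≠ 0 → Even m → (1 : ℚ) / m ≤ 1 / 2 := by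
      intro m hm he
      apply one_div_le_one_div_of_le (by norm_num)
      obtain ⟨n, hn⟩ := he
      have : 2 ≤ m := by omega
      exact_mod_cast this
    constructor
    · by_contra h
      have := hq _ h2' ej h
      have := hq2 _ h3 ei
      linarith
    · by_contra h
      have := hq _ h3 ei h
      have := hq2 _ h2' ej
      linarith
  exact rg_commute hT hij h0 hi hj (fun t ht => by rw [M.symmetric]; exact (key t ht).2)
    (fun t ht => by rw [M.symmetric]; exact (key t ht).1)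

end artin

end Pool.Agent.Helper83.EV
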