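import Pool.Agent.Helper83.EV.RG
import Pool.Agent.Helper54.EV.Par

/-!
# Relative girth, case (B), with the notation `Par`
-/

set_option autoImplicit false

namespace Pool.Agent.Helper83.EV

open Pool.Agent.Helper9.EV Pool.Agent.Helper54.EV

variable {S : Type} {M : CoxeterMatrix S}

theorem par_eq (T : Set S) : Par M T = PP M T := rfl

/-- **Case (B) of the relative girth lemma**: all triples `i, j, t` with `t` in `T` are spherical. -/
theorem rg_caseB_par [Finite S] (hE : ETri M) {T : Set S} {i j : S} (hij : i ≠ j) (h0 : M i j ≠ 0) (hi : i ∉ T)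
    (hj : j ∉ T) (hsp : ∀ t ∈ T, Sp3 M i j t) :
    RG (Par M T) (Par M (insert i T)) (Par M (insert j T)) (M i j) :=
  rg_caseB hE hij h0 hi hj hsp

end Pool.Agent.Helper83.EV
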